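import Pool.Agent.Helper26.Cc.Stm

/-! # Covariance and measurability of the group of `h(H_V)` -/

set_option autoImplicit false

open MeasureTheory Filter Topology ProbabilityTheory
open scoped BigOperators ENNReal NNReal InnerProductSpace ComplexConjugate

namespace Pool.Agent.Helper90.Cc

open Pool.Agent.H5R2.NB Pool.Agent.Helper26.Nb Pool.Agent.Helper26.Cm Pool.Agent.Helper26.Dj
  Pool.Agent.Helper26.Rg Pool.Agent.Helper26.Cc
open Pool.Agent.TH369.AN (fc)

/-! ### the group of a bounded generator -/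

section gen

variable {ι : Type} {W : UG (L2 ι)} {A : L2 ι →L[ℂ] L2 ι}

lemma gen_deriv (h : Gen W A) (x : L2 ι) (t : ℝ) :
    HasDerivAt (fun s => W.U s x) ((-Complex.I) • A (W.U t x)) t := by
  have hc : Continuous fun r => (-Complex.I) • A (W.U r x) :=
    (continuous_const_smul (-Complex.I)).comp (A.continuous.comp (W.cont' x))
  have e : (fun s => W.U s x) = fun s => x + ∫ r in (0 : ℝ)..s, (-Complex.I) • A (W.U r x) := by
    funext s
    refine lp.ext (funext fun j => ?_)
    let L : L2 ι →L[ℂ] ℂ := lp.evalCLM ℂ (fun _ : ι => ℂ) 2 j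
    show L (W.U s x) = L (x + ∫ r in (0 : ℝ)..s, (-Complex.I) • A (W.U r x))
    rw [map_add, ← L.intervalIntegral_comp_comm (hc.intervalIntegrable _ _)]
    have h1 : ∫ r in (0 : ℝ)..s, L ((-Complex.I) • A (W.U r x)) = L (W.U s x) - L (W.U 0 x) := by
      refine intervalIntegral.integral_eq_sub_of_hasDerivAt (f := fun r => L (W.U r x))
        (fun r _ => ?_) ((L.continuous.comp hc).intervalIntegrable _ _)
      rw [map_smul, smul_eq_mul]
      exact h x r j
    rw [h1, W.zero']
    ring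
  rw [e]
  exact (intervalIntegral.integral_hasDerivAt_right (hc.intervalIntegrable _ _)
    (hc.stronglyMeasurableAtFilter _ _) hc.continuousAt).const_add x

theorem gen_exp (h : Gen W A) (t : ℝ) :
    W.U t = NormedSpace.exp (t • (-Complex.I • A)) := by
  set B : L2 ι →L[ℂ] L2 ι := -Complex.I • A with hB
  refine ContinuousLinearMap.ext fun x => ?_
  have h1 : ∀ s : ℝ, HasDerivAt (fun s : ℝ => (NormedSpace.exp (s • B)) x)
      (B ((NormedSpace.exp (s • B)) x)) s := by
    intro s
    have h2 := hasDerivAt_exp_smul_const' (𝕂 := ℝ) B s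
    have h3 := (((ContinuousLinearMap.apply ℂ (L2 ι) x).restrictScalars ℝ).hasFDerivAt
      (x := NormedSpace.exp (s • B))).comp_hasDerivAt s h2
    exact h3
  have h4 : ∀ s : ℝ, HasDerivAt (fun s => W.U s x) (B (W.U s x)) s := fun s => gen_deriv h x s
  have h5 := ODE_solution_unique_univ (v := fun _ : ℝ => fun y : L2 ι => B y)
    (s := fun _ => Set.univ) (K := ‖B‖₊) (f := fun s => W.U s x)
    (g := fun s : ℝ => (NormedSpace.exp (s • B)) x) (t₀ := 0)
    (fun _ => B.lipschitz.lipschitzOnWith)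
    (fun s => ⟨h4 s, Set.mem_univ _⟩) (fun s => ⟨h1 s, Set.mem_univ _⟩)
    (by simp [W.zero'])
  exact congrFun h5 t

end gen

/-! ### uniform approximation of the functional calculus by polynomials -/

section abs

variable {X : Type} [NormedAddCommGroup X] [InnerProductSpace ℂ X] [CompleteSpace X]

lemma fc_near (h : ℝ → ℝ) (hh : Continuous h) (C ε : ℝ) (hε : 0 < ε) :
    ∃ p : Polynomial ℝ, ∀ T : X →L[ℂ] X, IsSelfAdjoint T → ‖T‖ ≤ C →
      ‖fc h T - Polynomial.aeval T p‖ ≤ ε := by
  obtain ⟨p, hp⟩ := exists_polynomial_near_of_continuousOn (-|C|) |C| h hh.continuousOn ε hε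
  refine ⟨p, fun T hT hC => ?_⟩
  rw [← cfc_polynomial p T hT]
  unfold fc
  rw [← cfc_sub h p.eval T hh.continuousOn p.continuous.continuousOn]
  refine norm_cfc_le hε.le fun x hx => ?_
  have hx' : |x| ≤ C := by
    have h1 := spectrum.norm_le_norm_mul_of_mem hx
    have h2 : ‖(1 : X →L[ℂ] X)‖ ≤ 1 := ContinuousLinearMap.norm_id_le
    rw [Real.norm_eq_abs] at h1
    exact h1.trans ((mul_le_of_le_one_right (norm_nonneg _) h2).trans hC)
  have h1 := hp x ⟨by linarith [neg_abs_le x, le_abs_self C],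
    by linarith [le_abs_self x, le_abs_self C]⟩
  rw [Real.norm_eq_abs, abs_sub_comm]
  exact h1.le

end abs

/-! ### covariant, strongly continuous families -/

variable {d : ℕ}

/-- covariant, strongly continuous, bounded families -/
structure PC (F : (Site d → ℝ) → L2 (Site d) →L[ℂ] L2 (Site d)) : Prop where
  cov : ∀ (z : Site d) (S : L2 (Site d) →L[ℂ] L2 (Site d)), IsShift z S →
    ∀ V ψ, F (sh z V) (S ψ) = S (F V ψ)
  cont : ∀ ψ, Continuous fun V => F V ψ
  bdd : ∃ C, ∀ V, ‖F V‖ ≤ C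

namespace PC

variable {F G : (Site d → ℝ) → L2 (Site d) →L[ℂ] L2 (Site d)}

lemma add (hF : PC F) (hG : PC G) : PC fun V => F V + G V where
  cov z S hS V ψ := by
    simp only [_root_.add_apply, hF.cov z S hS, hG.cov z S hS, map_add]
  cont ψ := by
    simp only [_root_.add_apply]
    exact (hF.cont ψ).add (hG.cont ψ)
  bdd := by
    obtain ⟨C, hC⟩ := hF.bdd
    obtain ⟨D, hD⟩ := hG.bdd
    exact ⟨C + D, fun V => (norm_add_le _ _).trans (add_le_add (hC V) (hD V))⟩

lemma smul (c : ℂ) (hF : PC F) : PC fun V => c • F V where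
  cov z S hS V ψ := by
    simp only [_root_.smul_apply, hF.cov z S hS, map_smul]
  cont ψ := by
    simp only [_root_.smul_apply]
    exact (hF.cont ψ).const_smul c
  bdd := by
    obtain ⟨C, hC⟩ := hF.bdd
    refine ⟨‖c‖ * C, fun V => ?_⟩
    rw [norm_smul]
    exact mul_le_mul_of_nonneg_left (hC V) (norm_nonneg _)

lemma one : PC fun _ : Site d → ℝ => (1 : L2 (Site d) →L[ℂ] L2 (Site d)) where
  cov _ _ _ _ _ := rfl
  cont _ := continuous_const
  bdd := ⟨‖(1 : L2 (Site d) →L[ℂ] L2 (Site d))‖, fun _ => le_rfl⟩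

lemma mul (hF : PC F) (hG : PC G) : PC fun V => F V * G V where
  cov z S hS V ψ := by
    show F (sh z V) (G (sh z V) (S ψ)) = S (F V (G V ψ))
    rw [hG.cov z S hS, hF.cov z S hS]
  cont ψ := by
    obtain ⟨C, hC⟩ := hF.bdd
    rw [continuous_iff_continuousAt]
    intro V₀
    rw [ContinuousAt, tendsto_iff_norm_sub_tendsto_zero]
    have h1 : ∀ V, ‖(F V * G V) ψ - (F V₀ * G V₀) ψ‖ ≤
        C * ‖G V ψ - G V₀ ψ‖ + ‖F V (G V₀ ψ) - F V₀ (G V₀ ψ)‖ := by
      intro V
      have e : (F V * G V) ψ - (F V₀ * G V₀) ψ =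
          F V (G V ψ - G V₀ ψ) + (F V (G V₀ ψ) - F V₀ (G V₀ ψ)) := by
        show F V (G V ψ) - F V₀ (G V₀ ψ) = _
        rw [map_sub]
        abel
      rw [e]
      refine (norm_add_le _ _).trans ?_
      gcongr
      refine ((F V).le_opNorm _).trans ?_
      gcongr
      exact hC V
    have h2 : Tendsto (fun V => C * ‖G V ψ - G V₀ ψ‖ + ‖F V (G V₀ ψ) - F V₀ (G V₀ ψ)‖) (𝓝 V₀)
        (𝓝 0) := by
      have hc : Continuous fun V => C * ‖G V ψ - G V₀ ψ‖ + ‖F V (G V₀ ψ) - F V₀ (G V₀ ψ)‖ :=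
        (continuous_const.mul ((hG.cont ψ).sub continuous_const).norm).add
          ((hF.cont (G V₀ ψ)).sub continuous_const).norm
      have := hc.tendsto V₀
      simpa using this
    exact squeeze_zero (fun _ => norm_nonneg _) h1 h2
  bdd := by
    obtain ⟨C, hC⟩ := hF.bdd
    obtain ⟨D, hD⟩ := hG.bdd
    refine ⟨C * D, fun V => (norm_mul_le _ _).trans ?_⟩
    exact mul_le_mul (hC V) (hD V) (norm_nonneg _) ((norm_nonneg _).trans (hC V))

/-- uniform limits -/
lemma lim (h : ∀ ε : ℝ, 0 < ε → ∃ G, PC G ∧ ∀ V, ‖F V - G V‖ ≤ ε) : PC F where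
  cov z S hS V ψ := by
    rw [← sub_eq_zero, ← norm_le_zero_iff]
    refine le_of_forall_pos_le_add fun ε hε => ?_
    set M : ℝ := ‖S ψ‖ + ‖S‖ * ‖ψ‖ with hM
    have hM0 : 0 ≤ M := by positivity
    obtain ⟨G, hG, hFG⟩ := h (ε / (M + 1)) (by positivity)
    have e : F (sh z V) (S ψ) - S (F V ψ) =
        (F (sh z V) - G (sh z V)) (S ψ) - S ((F V - G V) ψ) := by
      rw [_root_.sub_apply, _root_.sub_apply, map_sub, hG.cov z S hS]
      abel
    rw [e, zero_add]
    calc ‖(F (sh z V) - G (sh z V)) (S ψ) - S ((F V - G V) ψ)‖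
        ≤ ‖(F (sh z V) - G (sh z V)) (S ψ)‖ + ‖S ((F V - G V) ψ)‖ := norm_sub_le _ _
      _ ≤ ε / (M + 1) * ‖S ψ‖ + ‖S‖ * (ε / (M + 1) * ‖ψ‖) := by
          gcongr
          · refine (ContinuousLinearMap.le_opNorm _ _).trans ?_
            gcongr
            exact hFG _
          · refine (ContinuousLinearMap.le_opNorm _ _).trans ?_
            gcongr
            refine (ContinuousLinearMap.le_opNorm _ _).trans ?_
            gcongr
            exact hFG _
      _ = ε / (M + 1) * M := by rw [hM]; ring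
      _ ≤ ε / (M + 1) * (M + 1) := by gcongr; linarith
      _ = ε := by field_simp
  cont ψ := by
    refine continuous_of_uniform_approx_of_continuous fun u hu => ?_
    rw [Metric.mem_uniformity_dist] at hu
    obtain ⟨ε, hε, hu⟩ := hu
    obtain ⟨G, hG, hFG⟩ := h (ε / (‖ψ‖ + 1) / 2) (by positivity)
    refine ⟨fun V => G V ψ, hG.cont ψ, fun V => hu ?_⟩
    rw [dist_eq_norm]
    have e : F V ψ - G V ψ = (F V - G V) ψ := by rw [_root_.sub_apply]
    rw [e]
    calc ‖(F V - G V) ψ‖ ≤ ‖F V - G V‖ * ‖ψ‖ := ContinuousLinearMap.le_opNorm _ _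
      _ ≤ ε / (‖ψ‖ + 1) / 2 * (‖ψ‖ + 1) := by
          gcongr
          · exact hFG V
          · linarith
      _ = ε / 2 := by field_simp
      _ < ε := by linarith
  bdd := by
    obtain ⟨G, hG, hFG⟩ := h 1 one_pos
    obtain ⟨D, hD⟩ := hG.bdd
    refine ⟨1 + D, fun V => ?_⟩
    have e : F V = (F V - G V) + G V := by abel
    rw [e]
    exact (norm_add_le _ _).trans (add_le_add (hFG V) (hD V))

lemma pow (hF : PC F) (n : ℕ) : PC fun V => F V ^ n := by
  induction n with
  | zero => simpa using one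
  | succ n ih => simpa [pow_succ] using ih.mul hF

lemma sum {ι : Type} (s : Finset ι) (H : ι → (Site d → ℝ) → L2 (Site d) →L[ℂ] L2 (Site d))
    (hH : ∀ i ∈ s, PC (H i)) : PC fun V => ∑ i ∈ s, H i V := by
  classical
  induction s using Finset.induction_on with
  | empty =>
    have := (one (d := d)).smul 0
    simpa using this
  | insert a s ha ih =>
    simp only [Finset.sum_insert ha]
    exact (hH a (Finset.mem_insert_self _ _)).add
      (ih fun i hi => hH i (Finset.mem_insert_of_mem hi))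

/-- polynomials -/
lemma poly (hF : PC F) (p : Polynomial ℝ) : PC fun V => Polynomial.aeval (F V) p := by
  induction p using Polynomial.induction_on' with
  | add p q hp hq => simpa using hp.add hq
  | monomial n a =>
    have h1 := (hF.pow n).smul (a : ℂ)
    have e : (fun V => Polynomial.aeval (F V) (Polynomial.monomial n a)) =
        fun V => (a : ℂ) • F V ^ n := by
      funext V
      rw [Polynomial.aeval_monomial, Algebra.algebraMap_eq_smul_one, smul_mul_assoc, one_mul]
      rfl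
    rw [e]
    exact h1

/-- the continuous functional calculus -/
lemma cfc' (hF : PC F) (hs : ∀ V, IsSelfAdjoint (F V)) (h : ℝ → ℝ) (hh : Continuous h) :
    PC fun V => fc h (F V) := by
  obtain ⟨C, hC⟩ := hF.bdd
  refine lim fun ε hε => ?_
  obtain ⟨p, hp⟩ := fc_near (X := L2 (Site d)) h hh C ε hε
  exact ⟨fun V => Polynomial.aeval (F V) p, hF.poly p, fun V => hp _ (hs V) (hC V)⟩

/-- the exponential -/
lemma exp (hF : PC F) : PC fun V => NormedSpace.exp (F V) := by
  obtain ⟨C, hC⟩ := hF.bdd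
  have h0 : (NormedSpace.expSeries ℂ (L2 (Site d) →L[ℂ] L2 (Site d))).radius = ⊤ :=
    NormedSpace.expSeries_radius_eq_top _ _
  have h1 := (NormedSpace.exp_hasFPowerSeriesOnBall (𝕂 := ℂ)
    (𝔸 := L2 (Site d) →L[ℂ] L2 (Site d))).tendstoUniformlyOn (r' := Real.toNNReal (|C| + 1))
      (ENNReal.coe_lt_top)
  refine lim fun ε hε => ?_
  rw [Metric.tendstoUniformlyOn_iff] at h1
  obtain ⟨N, hN⟩ := (h1 ε hε).exists
  refine ⟨fun V => ∑ k ∈ Finset.range N, ((k.factorial : ℂ)⁻¹) • F V ^ k,
    sum _ _ fun k _ => (hF.pow k).smul _, fun V => ?_⟩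
  have h2 := hN (F V) (by
    rw [Metric.mem_ball, dist_zero_right, Real.coe_toNNReal _ (by positivity)]
    have := hC V
    have := le_abs_self C
    linarith)
  rw [zero_add, dist_eq_norm] at h2
  refine le_trans (le_of_eq ?_) h2.le
  congr 2
  unfold FormalMultilinearSeries.partialSum
  refine Finset.sum_congr rfl fun k _ => ?_
  rw [NormedSpace.expSeries_apply_eq]

lemma cv (hF : PC F) : Cv F where
  cov := hF.cov
  meas x y := ((STAT.cont_eval x).comp (hF.cont (dl y))).measurable
  bdd := hF.bdd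

end PC

lemma hopf_shift (c : ℝ) {z : Site d} {S : L2 (Site d) →L[ℂ] L2 (Site d)} (hS : IsShift z S)
    (ψ : L2 (Site d)) (x : Site d) :
    hopf c (fun y => (S ψ) y) x = hopf c (fun y => ψ y) (x + z) := by
  unfold hopf
  congr 1
  refine Finset.sum_congr rfl fun i _ => ?_
  have e1 : (S ψ) (x + Pi.single i 1) = ψ (x + z + Pi.single i 1) := by
    rw [hS, add_right_comm]
  have e2 : (S ψ) (x - Pi.single i 1) = ψ (x + z - Pi.single i 1) := by
    rw [hS, sub_add_eq_add_sub]
  exact congrArg₂ (· + ·) e1 e2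

theorem pc_TC (c : ℝ) {R : ℝ} (hR : 0 ≤ R) : PC (d := d) fun V => TC c hR V where
  cov z S hS V ψ := by
    refine lp.ext (funext fun x => ?_)
    rw [hS]
    unfold TC
    rw [TV_apply, TV_apply, hopf_shift c hS, hS]
    rfl
  cont ψ := by
    unfold TC TV
    simp only [_root_.add_apply]
    refine continuous_const.add ?_
    have h1 := mulL_cont (fun (V : Site d → ℝ) y => ((cl R V y : ℝ) : ℂ)) R
      (fun V y => nV (cl_le hR V) y) (fun y => by unfold cl pot; fun_prop)
    exact h1.comp (continuous_id.prodMk (continuous_const (y := ψ)))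
  bdd := by
    refine ⟨‖Kp d c‖ + max R 0, fun V => ?_⟩
    unfold TC TV
    refine (norm_add_le _ _).trans ?_
    gcongr
    exact mulL_le _ _ _

/-- CE: covariance and measurability of the group of `h(H_V)` -/
theorem ce : S_CE := by
  intro d c R hR h hh W hW
  refine ⟨fun t => ?_⟩
  have h1 : PC (d := d) fun V => fc h (TC c hR V) :=
    (pc_TC c hR).cfc' (fun V => TV_sa _ _ _ _) h hh
  have h2 := ((h1.smul (-Complex.I)).smul (t : ℂ)).exp
  have e : (fun V => (W V).U t) = fun V =>
      NormedSpace.exp ((t : ℂ) • (-Complex.I) • fc h (TC c hR V)) := by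
    funext V
    rw [gen_exp (hW V) t]
    rfl
  rw [e]
  exact h2.cv

end Pool.Agent.Helper90.Cc
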